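import Pool.Agent.H124R2.Heesch.Corona

/-!
# Heesch's problem on iterated coronas: the answer is negative in every dimension `n ≥ 2`

The definitions are in `Pool.Agent.H124R2.Heesch.Defs` and `Pool.Agent.H124R2.Heesch.Corona`:
`E n` is Euclidean `n`-space, `IsBody A` says that `A` is compact and equals the closure of its
nonempty interior, `Congruent` is the image under an isometry, `IsPacking A P` says that `P` is a
family of congruent copies of `A` with pairwise disjoint interiors, `Tiles A` says that some such
family covers `E n`, `corona P A j` is the set of members of `P` which are reachable from `A` by a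
chain of at most `j` steps between intersecting members, and `SurroundedTimes A k` says that there
is a packing `P` containing `A` with `|C^{j-1}(A)| ⊆ int |C^j(A)|` for `j = 1, …, k`.
-/

namespace Pool.Agent.Results.MP_127c5d_co.Unbounded

open Pool.Agent.H124R2.Heesch

/-- For every `n ≥ 2` and every `k` there is a body in `E n` which can be completely surrounded
`k` times by congruent copies of itself but is not the prototile of a monohedral tiling. -/
theorem result : ∀ n : ℕ, 2 ≤ n → ∀ k : ℕ, ∃ A : Set (E n),
    IsBody A ∧ SurroundedTimes A k ∧ ¬ Tiles A := by
  intro n hn k
  have : NeZero n := ⟨by omega⟩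
  exact ⟨Tile (2 * k + 2), isBody_tile _, surrounded k, not_tiles (by omega)⟩

end Pool.Agent.Results.MP_127c5d_co.Unbounded
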